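import Pool.Agent.S09026

/-! # Faithful circuit covers for weights in `k ℤ*`: all odd `k`

For odd `k`, a finite graph (parallel edges allowed) that contains a subdivision of the Petersen
graph does not have property `P_k`. With the theorem of Alspach, Goddyn and Zhang (a bridgeless
graph has property `P_1` iff it contains no subdivision of the Petersen graph) this determines the
bridgeless graphs with property `P_k` for all odd `k`: they are the bridgeless graphs with
property `P_1`. -/

set_option autoImplicit false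

open Finset

open scoped Classical

namespace Pool.Agent.Results.MP_3c540c_co.OddMultiples

/-- A finite loopless graph, parallel edges allowed: every edge has two distinct ends. -/
structure MGraph (V E : Type) where
  /-- the ends of an edge -/
  ends : E → Sym2 V
  /-- no loops -/
  loopless : ∀ e, ¬ (ends e).IsDiag

section defs

variable {V E : Type} [Fintype V] [Fintype E]

/-- The edge cut `δ(X)`: the edges with exactly one end in `X`. -/
noncomputable def cut (G : MGraph V E) (X : Finset V) : Finset E :=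
  univ.filter fun e => ∃ u v, G.ends e = s(u, v) ∧ u ∈ X ∧ v ∉ X

/-- `w(e) ≤ w(T - e)` for every edge cut `T` and every edge `e` of `T`. -/
def Admissible (G : MGraph V E) (w : E → ℕ) : Prop :=
  ∀ X : Finset V, X.Nonempty → X ≠ univ → ∀ e ∈ cut G X, w e ≤ ∑ f ∈ (cut G X).erase e, w f

/-- `w(T)` is even for every edge cut `T`. -/
def Eulerian (G : MGraph V E) (w : E → ℕ) : Prop :=
  ∀ X : Finset V, X.Nonempty → X ≠ univ → Even (∑ f ∈ cut G X, w f)

/-- The edge sets of circuits: nonempty, each vertex is an end of exactly `0` or `2` edges of `C`,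
and `C` is connected. -/
def IsCircuit (G : MGraph V E) (C : Finset E) : Prop :=
  C.Nonempty ∧
  (∀ v, (C.filter fun e => v ∈ G.ends e).card = 0 ∨ (C.filter fun e => v ∈ G.ends e).card = 2) ∧
  ∀ e ∈ C, ∀ f ∈ C,
    Relation.ReflTransGen (fun a b => a ∈ C ∧ b ∈ C ∧ ∃ v, v ∈ G.ends a ∧ v ∈ G.ends b) e f

/-- A faithful circuit cover of `(G, w)`: a finite family of circuits such that every edge `e` lies
in exactly `w e` of them. -/
def FaithfulCover (G : MGraph V E) (w : E → ℕ) : Prop :=
  ∃ (n : ℕ) (C : Fin n → Finset E), (∀ j, IsCircuit G (C j)) ∧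
    ∀ e, (univ.filter fun j => e ∈ C j).card = w e

/-- Property `P_k`: every admissible eulerian weight with all values divisible by `k` has a
faithful circuit cover. -/
def PropertyP (G : MGraph V E) (k : ℕ) : Prop :=
  ∀ w : E → ℕ, (∀ e, k ∣ w e) → Admissible G w → Eulerian G w → FaithfulCover G w

end defs

/-- The vertices of the Petersen graph: `(0, i)` on the outer pentagon, `(1, i)` on the inner
pentagram. -/
abbrev PV := Fin 2 × Fin 5

/-- The edges of the Petersen graph: `(0, i)` joins `(0, i)` and `(0, i + 1)`, `(1, i)` joins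
`(0, i)` and `(1, i)`, and `(2, i)` joins `(1, i)` and `(1, i + 2)` (indices modulo `5`). -/
abbrev PE := Fin 3 × Fin 5

/-- first end of an edge of the Petersen graph -/
def src (e : PE) : PV := if e.1 = 2 then (1, e.2) else (0, e.2)

/-- second end of an edge of the Petersen graph -/
def tgt (e : PE) : PV :=
  if e.1 = 0 then (0, e.2 + 1) else if e.1 = 1 then (1, e.2) else (1, e.2 + 2)

/-- A subdivision of the Petersen graph in `G`: distinct branch vertices `φ x`, and for every edge
`e` of the Petersen graph a path from `φ (src e)` to `φ (tgt e)` with `len e ≥ 1` edges, with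
vertices `vert e 0, …, vert e (len e)` and edges `edge e 0, …, edge e (len e - 1)`, such that
two of these path vertices coincide only if they are the same vertex of the same path or both are
ends of their paths. -/
structure PetersenSubdivision {V E : Type} (G : MGraph V E) where
  φ : PV → V
  len : PE → ℕ
  vert : PE → ℕ → V
  edge : PE → ℕ → E
  inj : Function.Injective φ
  pos : ∀ e, 0 < len e
  first : ∀ e, vert e 0 = φ (src e)
  last : ∀ e, vert e (len e) = φ (tgt e)
  link : ∀ e i, i < len e → G.ends (edge e i) = s(vert e i, vert e (i + 1))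
  disj : ∀ e i f j, i ≤ len e → j ≤ len f → vert e i = vert f j →
    (e = f ∧ i = j) ∨ ((i = 0 ∨ i = len e) ∧ (j = 0 ∨ j = len f))

/-! ### Facts on the Petersen graph -/

lemma src_ne_tgt : ∀ e : PE, src e ≠ tgt e := by decide

lemma simple1 : ∀ e f : PE, src e = src f → tgt e = tgt f → e = f := by decide

lemma simple2 : ∀ e f : PE, src e = tgt f → tgt e = src f → False := by decide

lemma exists_inc : ∀ x : PV, ∃ e : PE, src e = x := by decide

/-- the weight of the Petersen graph: `2` on the spokes and `1` on the two pentagons -/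
def pw (e : PE) : ℕ := if e.1 = 1 then 2 else 1

/-- table form of a two-colouring of the vertices -/
def cross (Y : PV → Bool) (e : PE) : ℕ := if Y (src e) = Y (tgt e) then 0 else 1

lemma even_Y : ∀ (a : Fin 5 → Bool) (b : Fin 5 → Bool),
    (∑ e : PE, pw e * cross (fun x => if x.1 = 0 then a x.2 else b x.2) e) % 2 = 0 := by
  decide +kernel

lemma adm_Y : ∀ (a : Fin 5 → Bool) (b : Fin 5 → Bool) (e : PE),
    cross (fun x => if x.1 = 0 then a x.2 else b x.2) e = 1 →
    2 * pw e ≤ ∑ f : PE, pw f * cross (fun x => if x.1 = 0 then a x.2 else b x.2) f := by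
  decide +kernel

lemma split (Y : PV → Bool) : Y = fun x => if x.1 = 0 then Y (0, x.2) else Y (1, x.2) := by
  funext x
  obtain ⟨i, j⟩ := x
  fin_cases i <;> simp

lemma even_Y' (Y : PV → Bool) : (∑ e : PE, pw e * cross Y e) % 2 = 0 := by
  rw [split Y]
  exact even_Y (fun i => Y (0, i)) (fun i => Y (1, i))

lemma adm_Y' (Y : PV → Bool) (e : PE) (h : cross Y e = 1) :
    2 * pw e ≤ ∑ f : PE, pw f * cross Y f := by
  rw [split Y] at h ⊢
  exact adm_Y (fun i => Y (0, i)) (fun i => Y (1, i)) e h

/-- numbering of the edges as in the starting file -/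
def τ (k : Fin 15) : PE :=
  (![(0, 0), (1, 0), (0, 4), (0, 1), (1, 1), (2, 0), (2, 3), (0, 3), (1, 4), (1, 2), (0, 2),
    (2, 1), (2, 4), (2, 2), (1, 3)] : Fin 15 → PE) k

/-- numbering of the vertices as in the starting file -/
def σ (v : Fin 10) : PV :=
  (![(0, 0), (0, 1), (1, 0), (0, 4), (0, 2), (1, 1), (1, 2), (1, 3), (0, 3), (1, 4)] :
    Fin 10 → PV) v

open Pool.Agent.S09026 (q1 q2 q3 no_odd)

lemma inc_set : ∀ v : Fin 10, ∀ e : PE, (src e = σ v ∨ tgt e = σ v) ↔
    (e = τ (q1 v) ∨ e = τ (q2 v) ∨ e = τ (q3 v)) := by decide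

lemma q_ne : ∀ v : Fin 10, τ (q1 v) ≠ τ (q2 v) ∧ τ (q1 v) ≠ τ (q3 v) ∧ τ (q2 v) ≠ τ (q3 v) := by
  decide

/-! ### Parity along a sequence -/

lemma seq_parity (x : ℕ → Prop) (n : ℕ) :
    (∑ i ∈ range n, if (x i ↔ x (i + 1)) then 0 else 1) % 2 = if (x 0 ↔ x n) then 0 else 1 := by
  induction n with
  | zero => simp
  | succ n ih =>
    rw [sum_range_succ, Nat.add_mod, ih]
    by_cases h0 : x 0 <;> by_cases h1 : x n <;> by_cases h2 : x (n + 1) <;> simp [h0, h1, h2]

section main

variable {V E : Type} [Fintype V] [Fintype E] {G : MGraph V E} (S : PetersenSubdivision G)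

include S

lemma edge_inj {e f : PE} {i j : ℕ} (hi : i < S.len e) (hj : j < S.len f)
    (h : S.edge e i = S.edge f j) : e = f ∧ i = j := by
  have h1 := S.link e i hi
  rw [h, S.link f j hj, Sym2.eq_iff] at h1
  have hne : ∀ e, S.vert e 0 ≠ S.vert e (S.len e) := by
    intro e he
    rw [S.first, S.last] at he
    exact src_ne_tgt e (S.inj he)
  rcases h1 with ⟨h1, h2⟩ | ⟨h1, h2⟩
  · rcases S.disj f j e i hj.le hi.le h1 with ⟨h3, h4⟩ | ⟨h3, h4⟩
    · exact ⟨h3.symm, h4.symm⟩
    · rcases S.disj f (j + 1) e (i + 1) hj hi h2 with ⟨h5, h6⟩ | ⟨h5, h6⟩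
      · exact ⟨h5.symm, by omega⟩
      · have hj0 : j = 0 := by omega
        have hi0 : i = 0 := by omega
        have hlf : j + 1 = S.len f := by omega
        have hle : i + 1 = S.len e := by omega
        rw [hlf, hle, S.last, S.last] at h2
        rw [hj0, hi0, S.first, S.first] at h1
        exact ⟨(simple1 f e (S.inj h1) (S.inj h2)).symm, by omega⟩
  · rcases S.disj f j e (i + 1) hj.le hi h1 with ⟨h3, h4⟩ | ⟨h3, h4⟩
    · rcases S.disj f (j + 1) e i hj hi.le h2 with ⟨h5, h6⟩ | ⟨h5, h6⟩
      · omega
      · subst h3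
        exfalso
        have hi0 : i = 0 := by omega
        have hlf : j + 1 = S.len f := by omega
        rw [hi0, hlf] at h2
        exact hne f h2.symm
    · rcases S.disj f (j + 1) e i hj hi.le h2 with ⟨h5, h6⟩ | ⟨h5, h6⟩
      · subst h5
        exfalso
        have hj0 : j = 0 := by omega
        have hle : i + 1 = S.len f := by omega
        rw [hj0, hle] at h1
        exact hne f h1
      · exfalso
        have hj0 : j = 0 := by omega
        have hi0 : i = 0 := by omega
        have hlf : j + 1 = S.len f := by omega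
        have hle : i + 1 = S.len e := by omega
        rw [hj0, hle, S.first, S.last] at h1
        rw [hlf, hi0, S.first, S.last] at h2
        exact simple2 f e (S.inj h1) (S.inj h2)

lemma sum_one (h : PE → ℕ) {e : PE} {i : ℕ} (hi : i < S.len e) :
    (∑ f : PE, ∑ j ∈ range (S.len f), if S.edge f j = S.edge e i then h f else 0) = h e := by
  rw [Finset.sum_eq_single e]
  · rw [Finset.sum_eq_single i]
    · simp
    · intro j hj hne
      rw [if_neg]
      intro hh
      exact hne (edge_inj S (mem_range.1 hj) hi hh).2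
    · intro hh
      exact absurd (mem_range.2 hi) hh
  · intro f _ hne
    apply Finset.sum_eq_zero
    intro j hj
    rw [if_neg]
    intro hh
    exact hne (edge_inj S (mem_range.1 hj) hi hh).1
  · intro hh
    exact absurd (mem_univ _) hh

/-- the weight: `c` times the weight of the Petersen graph on its subdivision -/
noncomputable def wt (c : ℕ) (g : E) : ℕ :=
  ∑ f : PE, ∑ j ∈ range (S.len f), if S.edge f j = g then c * pw f else 0

lemma wt_edge (c : ℕ) {e : PE} {i : ℕ} (hi : i < S.len e) :
    wt S c (S.edge e i) = c * pw e := sum_one S (fun f => c * pw f) hi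

lemma wt_ne {c : ℕ} {g : E} (h : wt S c g ≠ 0) : ∃ e i, i < S.len e ∧ g = S.edge e i := by
  by_contra hcon
  apply h
  unfold wt
  apply Finset.sum_eq_zero
  intro f _
  apply Finset.sum_eq_zero
  intro j hj
  rw [if_neg]
  intro hh
  exact hcon ⟨f, j, mem_range.1 hj, hh.symm⟩

lemma wt_sum (c : ℕ) (T : Finset E) : ∑ g ∈ T, wt S c g =
    ∑ f : PE, c * pw f * ∑ j ∈ range (S.len f), if S.edge f j ∈ T then 1 else 0 := by
  unfold wt
  rw [Finset.sum_comm]
  apply Finset.sum_congr rfl
  intro f _
  rw [Finset.sum_comm, Finset.mul_sum]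
  apply Finset.sum_congr rfl
  intro j _
  rw [Finset.sum_ite_eq]
  split_ifs <;> simp

lemma mem_cut_edge (X : Finset V) {e : PE} {i : ℕ} (hi : i < S.len e) :
    S.edge e i ∈ cut G X ↔ ¬ (S.vert e i ∈ X ↔ S.vert e (i + 1) ∈ X) := by
  unfold cut
  rw [mem_filter, S.link e i hi]
  constructor
  · rintro ⟨_, u, v, huv, hu, hv⟩
    rw [Sym2.eq_iff] at huv
    rcases huv with ⟨rfl, rfl⟩ | ⟨rfl, rfl⟩
    · tauto
    · tauto
  · intro h
    refine ⟨mem_univ _, ?_⟩
    by_cases h1 : S.vert e i ∈ X
    · exact ⟨_, _, rfl, h1, by tauto⟩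
    · exact ⟨_, _, Sym2.eq_swap, by tauto, h1⟩

/-- the side of the branch vertices -/
noncomputable def Yf (X : Finset V) : PV → Bool := fun x => decide (S.φ x ∈ X)

/-- number of edges of the path `e` in the cut -/
noncomputable def N (X : Finset V) (e : PE) : ℕ :=
  ∑ j ∈ range (S.len e), if S.edge e j ∈ cut G X then 1 else 0

lemma N_mod (X : Finset V) (e : PE) : N S X e % 2 = cross (Yf S X) e := by
  have h := seq_parity (fun i => S.vert e i ∈ X) (S.len e)
  have h2 : N S X e = ∑ i ∈ range (S.len e),
      if (S.vert e i ∈ X ↔ S.vert e (i + 1) ∈ X) then 0 else 1 := by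
    unfold N
    apply Finset.sum_congr rfl
    intro i hi
    by_cases h3 : (S.vert e i ∈ X ↔ S.vert e (i + 1) ∈ X)
    · rw [if_neg (fun hh => (mem_cut_edge S X (mem_range.1 hi)).1 hh h3), if_pos h3]
    · rw [if_pos ((mem_cut_edge S X (mem_range.1 hi)).2 h3), if_neg h3]
  have h3 : (∑ i ∈ range (S.len e),
      if (S.vert e i ∈ X ↔ S.vert e (i + 1) ∈ X) then 0 else 1) % 2 =
      if (S.vert e 0 ∈ X ↔ S.vert e (S.len e) ∈ X) then 0 else 1 := by
    refine Eq.trans ?_ (h.trans ?_)
    · congr 1
      exact Finset.sum_congr rfl fun i _ => by split_ifs <;> rfl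
    · split_ifs <;> rfl
  rw [h2, h3]
  unfold cross Yf
  rw [S.first, S.last]
  by_cases h4 : S.φ (src e) ∈ X <;> by_cases h5 : S.φ (tgt e) ∈ X <;> simp [h4, h5]

lemma wt_eulerian (c : ℕ) : Eulerian G (wt S c) := by
  intro X _ _
  rw [wt_sum]
  change Even (∑ f : PE, c * pw f * N S X f)
  have h1 : ∀ f : PE, c * pw f * N S X f =
      2 * (c * pw f * (N S X f / 2)) + c * (pw f * cross (Yf S X) f) := by
    intro f
    rw [← N_mod S X f]
    have := Nat.div_add_mod (N S X f) 2
    calc c * pw f * N S X f = c * pw f * (2 * (N S X f / 2) + N S X f % 2) := by rw [this]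
      _ = _ := by ring
  rw [Finset.sum_congr rfl (fun f _ => h1 f), Finset.sum_add_distrib, ← Finset.mul_sum,
    ← Finset.mul_sum]
  exact (even_two_mul _).add ((Nat.even_iff.2 (even_Y' (Yf S X))).mul_left c)

lemma wt_admissible (c : ℕ) : Admissible G (wt S c) := by
  intro X _ _ g hg
  by_cases h0 : wt S c g = 0
  · rw [h0]
    exact Nat.zero_le _
  obtain ⟨e, i, hi, rfl⟩ := wt_ne S h0
  have h1 : 2 * wt S c (S.edge e i) ≤ ∑ f ∈ cut G X, wt S c f := by
    rw [wt_sum, wt_edge S c hi]
    change 2 * (c * pw e) ≤ ∑ f : PE, c * pw f * N S X f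
    by_cases h2 : 2 ≤ N S X e
    · calc 2 * (c * pw e) ≤ c * pw e * N S X e := by
            rw [mul_comm 2]
            exact Nat.mul_le_mul_left _ h2
        _ ≤ _ := Finset.single_le_sum (f := fun f => c * pw f * N S X f)
            (fun f _ => Nat.zero_le _) (mem_univ e)
    · have h3 : 1 ≤ N S X e := by
        unfold N
        have := Finset.single_le_sum (f := fun j => if S.edge e j ∈ cut G X then 1 else 0)
          (fun j _ => Nat.zero_le _) (mem_range.2 hi)
        rw [if_pos hg] at this
        exact this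
      have h4 : N S X e % 2 = 1 := by omega
      rw [N_mod] at h4
      have h5 := adm_Y' (Yf S X) e h4
      calc 2 * (c * pw e) = c * (2 * pw e) := by ring
        _ ≤ c * ∑ f : PE, pw f * cross (Yf S X) f := Nat.mul_le_mul_left _ h5
        _ = ∑ f : PE, c * pw f * cross (Yf S X) f := by
            rw [Finset.mul_sum]
            exact Finset.sum_congr rfl fun f _ => by ring
        _ ≤ _ := by
            apply Finset.sum_le_sum
            intro f _
            apply Nat.mul_le_mul_left
            rw [← N_mod]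
            exact Nat.mod_le _ _
  rw [← Finset.add_sum_erase _ _ hg] at h1
  omega

/-! ### Circuits in the subdivision -/

lemma branch_vert {x : PV} {e : PE} {i : ℕ} (hi : i ≤ S.len e) (h : S.vert e i = S.φ x) :
    (i = 0 ∧ src e = x) ∨ (i = S.len e ∧ tgt e = x) := by
  obtain ⟨f, hf⟩ := exists_inc x
  have h1 : S.vert e i = S.vert f 0 := by rw [h, S.first, hf]
  rcases S.disj e i f 0 hi (Nat.zero_le _) h1 with ⟨h2, h3⟩ | ⟨h2, _⟩
  · subst h2
    exact Or.inl ⟨h3, hf⟩
  · rcases h2 with h2 | h2
    · rw [h2, S.first] at h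
      exact Or.inl ⟨h2, S.inj h⟩
    · rw [h2, S.last] at h
      exact Or.inr ⟨h2, S.inj h⟩

lemma step {C : Finset E} (hC : IsCircuit G C) (hsub : ∀ g ∈ C, ∃ e i, i < S.len e ∧ g = S.edge e i)
    {e : PE} {i : ℕ} (hi : i + 1 < S.len e) : S.edge e i ∈ C ↔ S.edge e (i + 1) ∈ C := by
  set v := S.vert e (i + 1) with hv
  have hfil : (C.filter fun g => v ∈ G.ends g) ⊆ {S.edge e i, S.edge e (i + 1)} := by
    intro g hg
    rw [mem_filter] at hg
    obtain ⟨f, j, hj, rfl⟩ := hsub g hg.1
    have hg2 := hg.2
    rw [S.link f j hj, Sym2.mem_iff] at hg2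
    rw [mem_insert, mem_singleton]
    rcases hg2 with hg2 | hg2
    · rcases S.disj e (i + 1) f j hi.le hj.le hg2 with ⟨h2, h3⟩ | ⟨h2, _⟩
      · subst h2
        subst h3
        exact Or.inr rfl
      · omega
    · rcases S.disj e (i + 1) f (j + 1) hi.le hj hg2 with ⟨h2, h3⟩ | ⟨h2, _⟩
      · subst h2
        have : j = i := by omega
        subst this
        exact Or.inl rfl
      · omega
  have hne : S.edge e i ≠ S.edge e (i + 1) := by
    intro hh
    have := (edge_inj S (by omega) hi hh).2
    omega
  have hcard : ({S.edge e i, S.edge e (i + 1)} : Finset E).card = 2 := Finset.card_pair hne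
  have hm1 : v ∈ G.ends (S.edge e i) := by
    rw [S.link e i (by omega), Sym2.mem_iff]
    exact Or.inr rfl
  have hm2 : v ∈ G.ends (S.edge e (i + 1)) := by
    rw [S.link e (i + 1) hi, Sym2.mem_iff]
    exact Or.inl rfl
  have key : ∀ g, g ∈ (C.filter fun g => v ∈ G.ends g) →
      (C.filter fun g => v ∈ G.ends g) = {S.edge e i, S.edge e (i + 1)} := by
    intro g hg
    apply Finset.eq_of_subset_of_card_le hfil
    rw [hcard]
    rcases hC.2.1 v with h | h
    · rw [Finset.card_eq_zero] at h
      rw [h] at hg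
      exact absurd hg (Finset.notMem_empty _)
    · exact h.ge
  constructor
  · intro h
    have h2 := key _ (mem_filter.2 ⟨h, hm1⟩)
    have h3 : S.edge e (i + 1) ∈ (C.filter fun g => v ∈ G.ends g) := by
      rw [h2]; simp
    exact (mem_filter.1 h3).1
  · intro h
    have h2 := key _ (mem_filter.2 ⟨h, hm2⟩)
    have h3 : S.edge e i ∈ (C.filter fun g => v ∈ G.ends g) := by
      rw [h2]; simp
    exact (mem_filter.1 h3).1

lemma all_or_none {C : Finset E} (hC : IsCircuit G C)
    (hsub : ∀ g ∈ C, ∃ e i, i < S.len e ∧ g = S.edge e i)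
    (e : PE) : ∀ i, i < S.len e → (S.edge e 0 ∈ C ↔ S.edge e i ∈ C) := by
  intro i
  induction i with
  | zero => intro _; exact Iff.rfl
  | succ i ih =>
    intro hi
    rw [ih (by omega)]
    exact step S hC hsub hi

/-- the edge of the path `e` at the branch vertex `x` -/
noncomputable def ee (x : PV) (e : PE) : E :=
  if src e = x then S.edge e 0 else S.edge e (S.len e - 1)

lemma parity {C : Finset E} (hC : IsCircuit G C)
    (hsub : ∀ g ∈ C, ∃ e i, i < S.len e ∧ g = S.edge e i) (x : PV) :
    Even ((univ : Finset PE).filter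
      (fun e => (src e = x ∨ tgt e = x) ∧ S.edge e 0 ∈ C)).card := by
  have h1 : (C.filter fun g => S.φ x ∈ G.ends g) = ((univ : Finset PE).filter
      (fun e => (src e = x ∨ tgt e = x) ∧ S.edge e 0 ∈ C)).image (ee S x) := by
    ext g
    rw [mem_filter, mem_image]
    constructor
    · rintro ⟨hg, hx⟩
      obtain ⟨e, i, hi, rfl⟩ := hsub g hg
      have hx2 := hx
      rw [S.link e i hi, Sym2.mem_iff] at hx2
      refine ⟨e, ?_, ?_⟩
      · rw [mem_filter]
        refine ⟨mem_univ _, ?_, (all_or_none S hC hsub e i hi).2 hg⟩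
        rcases hx2 with hx2 | hx2
        · rcases branch_vert S hi.le hx2.symm with ⟨_, h⟩ | ⟨_, h⟩
          · exact Or.inl h
          · exact Or.inr h
        · rcases branch_vert S (Nat.succ_le_of_lt hi) hx2.symm with ⟨_, h⟩ | ⟨_, h⟩
          · exact Or.inl h
          · exact Or.inr h
      · rcases hx2 with hx2 | hx2
        · rcases branch_vert S hi.le hx2.symm with ⟨h, h'⟩ | ⟨h, _⟩
          · unfold ee
            rw [if_pos h', h]
          · omega
        · rcases branch_vert S (Nat.succ_le_of_lt hi) hx2.symm with ⟨h, _⟩ | ⟨h, h'⟩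
          · omega
          · unfold ee
            rw [if_neg (fun hh => src_ne_tgt e (hh.trans h'.symm))]
            congr 1
            omega
    · rintro ⟨e, he, rfl⟩
      rw [mem_filter] at he
      obtain ⟨_, he1, he2⟩ := he
      have hp := S.pos e
      by_cases hs : src e = x
      · have : ee S x e = S.edge e 0 := by unfold ee; rw [if_pos hs]
        rw [this]
        refine ⟨he2, ?_⟩
        rw [S.link e 0 hp, Sym2.mem_iff, S.first, hs]
        exact Or.inl rfl
      · have ht : tgt e = x := by tauto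
        have : ee S x e = S.edge e (S.len e - 1) := by unfold ee; rw [if_neg hs]
        rw [this]
        refine ⟨(all_or_none S hC hsub e _ (by omega)).1 he2, ?_⟩
        rw [S.link e _ (by omega), Sym2.mem_iff]
        right
        have h3 : S.len e - 1 + 1 = S.len e := by omega
        rw [h3, S.last, ht]
  have h2 : (((univ : Finset PE).filter
      (fun e => (src e = x ∨ tgt e = x) ∧ S.edge e 0 ∈ C)).image (ee S x)).card =
      ((univ : Finset PE).filter
      (fun e => (src e = x ∨ tgt e = x) ∧ S.edge e 0 ∈ C)).card := by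
    apply Finset.card_image_of_injOn
    intro e _ f _ h
    have hpe := S.pos e
    have hpf := S.pos f
    unfold ee at h
    split_ifs at h
    · exact (edge_inj S hpe hpf h).1
    · exact (edge_inj S hpe (by omega) h).1
    · exact (edge_inj S (by omega) hpf h).1
    · exact (edge_inj S (by omega) (by omega) h).1
  rw [← h2, ← h1]
  rcases hC.2.1 (S.φ x) with h | h
  · rw [h]; exact Even.zero
  · rw [h]; exact even_two

lemma no_cover (c : ℕ) (hc : Odd c) : ¬ FaithfulCover G (wt S c) := by
  rintro ⟨n, C, hC, hw⟩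
  have hsub : ∀ j, ∀ g ∈ C j, ∃ e i, i < S.len e ∧ g = S.edge e i := by
    intro j g hg
    apply wt_ne S (c := c)
    rw [← hw g]
    intro h0
    rw [Finset.card_eq_zero] at h0
    have : j ∈ (univ.filter fun j => g ∈ C j) := mem_filter.2 ⟨mem_univ _, hg⟩
    rw [h0] at this
    exact Finset.notMem_empty _ this
  have hs : ∀ e : PE, (∑ j : Fin n, if S.edge e 0 ∈ C j then 1 else 0) = c * pw e := by
    intro e
    rw [← Finset.card_filter, hw, wt_edge S c (S.pos e)]
  have hp : ∀ (j : Fin n) (v : Fin 10),
      Even ((if S.edge (τ (q1 v)) 0 ∈ C j then 1 else 0) +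
        (if S.edge (τ (q2 v)) 0 ∈ C j then 1 else 0) +
        (if S.edge (τ (q3 v)) 0 ∈ C j then 1 else 0)) := by
    intro j v
    have h := parity S (hC j) (hsub j) (σ v)
    have h2 : ((univ : Finset PE).filter
        (fun e => (src e = σ v ∨ tgt e = σ v) ∧ S.edge e 0 ∈ C j)) =
        ({τ (q1 v), τ (q2 v), τ (q3 v)} : Finset PE).filter (fun e => S.edge e 0 ∈ C j) := by
      ext e
      rw [mem_filter, mem_filter, mem_insert, mem_insert, mem_singleton, inc_set v e]
      simp
    obtain ⟨n12, n13, n23⟩ := q_ne v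
    rw [h2, Finset.card_filter, Finset.sum_insert, Finset.sum_insert, Finset.sum_singleton,
      ← add_assoc] at h
    · exact h
    · simpa using n23
    · simpa using ⟨n12, n13⟩
  have h1 : ∀ e : PE, pw e = 1 → (∑ j : Fin n, if S.edge e 0 ∈ C j then 1 else 0) = c := by
    intro e he
    rw [hs, he, mul_one]
  have h2 : ∀ e : PE, pw e = 2 → (∑ j : Fin n, if S.edge e 0 ∈ C j then 1 else 0) = 2 * c := by
    intro e he
    rw [hs, he, mul_comm]
  exact no_odd (fun j k => if S.edge (τ k) 0 ∈ C j then 1 else 0)
    (fun j k => by split_ifs <;> norm_num) hp c hc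
    (h1 _ (by decide)) (h2 _ (by decide)) (h1 _ (by decide)) (h1 _ (by decide))
    (h2 _ (by decide)) (h1 _ (by decide)) (h1 _ (by decide)) (h1 _ (by decide))
    (h2 _ (by decide)) (h2 _ (by decide)) (h1 _ (by decide)) (h1 _ (by decide))
    (h1 _ (by decide)) (h1 _ (by decide)) (h2 _ (by decide))

lemma wt_val (c : ℕ) (g : E) : wt S c g = 0 ∨ wt S c g = c ∨ wt S c g = 2 * c := by
  by_cases h0 : wt S c g = 0
  · exact Or.inl h0
  · right
    obtain ⟨e, i, hi, rfl⟩ := wt_ne S h0
    rw [wt_edge S c hi]
    unfold pw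
    split_ifs
    · right
      exact mul_comm _ _
    · left
      exact mul_one _

end main

/-- For odd `k`, every finite graph containing a subdivision of the Petersen graph has an
admissible eulerian weight with values in `{0, k, 2 k}` without a faithful circuit cover, so it does
not have property `P_k`. Hence, for every finite graph `G` which satisfies the equivalence of
Alspach, Goddyn and Zhang (property `P_1` iff no subdivision of the Petersen graph), the same
equivalence holds for `P_k`, for all odd `k`; in particular `P_k` and `P_1` are then equivalent. -/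
theorem result :
    (∀ (V E : Type) [Fintype V] [Fintype E] (G : MGraph V E),
      Nonempty (PetersenSubdivision G) → ∀ k : ℕ, Odd k →
        (∃ w : E → ℕ, (∀ e, w e = 0 ∨ w e = k ∨ w e = 2 * k) ∧ Admissible G w ∧ Eulerian G w ∧
          ¬ FaithfulCover G w) ∧ ¬ PropertyP G k) ∧
    (∀ (V E : Type) [Fintype V] [Fintype E] (G : MGraph V E),
      (PropertyP G 1 ↔ ¬ Nonempty (PetersenSubdivision G)) → ∀ k : ℕ, Odd k →
        (PropertyP G k ↔ ¬ Nonempty (PetersenSubdivision G)) ∧ (PropertyP G k ↔ PropertyP G 1)) := by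
  have h1 : ∀ (V E : Type) [Fintype V] [Fintype E] (G : MGraph V E),
      Nonempty (PetersenSubdivision G) → ∀ k : ℕ, Odd k →
        (∃ w : E → ℕ, (∀ e, w e = 0 ∨ w e = k ∨ w e = 2 * k) ∧ Admissible G w ∧ Eulerian G w ∧
          ¬ FaithfulCover G w) ∧ ¬ PropertyP G k := by
    rintro V E _ _ G ⟨S⟩ k hk
    refine ⟨⟨wt S k, wt_val S k, wt_admissible S k, wt_eulerian S k, no_cover S k hk⟩, ?_⟩
    intro h
    refine no_cover S k hk (h (wt S k) (fun g => ?_) (wt_admissible S k) (wt_eulerian S k))
    rcases wt_val S k g with h | h | h <;> rw [h]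
    · exact dvd_zero _
    · exact dvd_mul_left _ _
  refine ⟨h1, ?_⟩
  intro V E _ _ G hG k hk
  have h2 : PropertyP G k ↔ ¬ Nonempty (PetersenSubdivision G) := by
    constructor
    · intro h hS
      exact (h1 V E G hS k hk).2 h
    · intro h w _ ha he
      exact hG.2 h w (fun _ => one_dvd _) ha he
  exact ⟨h2, h2.trans hG.symm⟩

end Pool.Agent.Results.MP_3c540c_co.OddMultiples
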